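import Pool.Agent.Helper12.MA.StC

/-!
# Project MA (MP_d63854_co): proof of `StWEM`
-/

set_option autoImplicit false

namespace Pool.Agent.Helper83.MA

open Pool.Agent.Helper12.MA
open Pool.Agent.Helper51.AJ (IsMinor Planar Apex ExMinor Con Tch)
open Pool.Agent.Helper12.NK (rst Kc add cnt Pcy IsFace Cof plus)

variable {V : Type}

/-- the component of `c` in `X`: connected, and all its neighbours are outside `X` -/
private theorem comp (G : SimpleGraph V) (X : Set V) (c : V) (hc : c ∈ X) :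
    ∃ C : Set V, c ∈ C ∧ C ⊆ X ∧ Con G C ∧ ∀ b ∈ Nb G C, b ∉ X := by
  classical
  let S : Set (Set V) := {A | c ∈ A ∧ A ⊆ X ∧ Con G A}
  have h1 : ({c} : Set V) ∈ S := by
    refine ⟨rfl, by simpa using hc, ?_⟩
    have : (G.induce ({c} : Set V)).Connected := by
      rw [SimpleGraph.connected_iff_exists_forall_reachable]
      refine ⟨⟨c, rfl⟩, ?_⟩
      rintro ⟨x, hx⟩
      have : x = c := hx
      subst this
      exact SimpleGraph.Reachable.refl _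
    exact this
  have hC : Con G (⋃₀ S) := by
    refine SimpleGraph.induce_sUnion_connected_of_pairwise_not_disjoint ⟨_, h1⟩ ?_ ?_
    · intro s t hs ht
      exact ⟨c, hs.1, ht.1⟩
    · intro s hs
      exact hs.2.2
  refine ⟨⋃₀ S, ⟨_, h1, rfl⟩, Set.sUnion_subset fun A hA => hA.2.1, hC, ?_⟩
  rintro b ⟨hb, a, ha, hab⟩ hbX
  apply hb
  refine ⟨⋃₀ S ∪ {b}, ⟨Or.inl ⟨_, h1, rfl⟩, ?_, ?_⟩, Or.inr rfl⟩
  · rintro x (hx | hx)
    · exact (Set.sUnion_subset fun A hA => hA.2.1 : ⋃₀ S ⊆ X) hx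
    · have : x = b := hx
      subst this
      exact hbX
  · have hb1 : (G.induce ({b} : Set V)).Connected := by
      rw [SimpleGraph.connected_iff_exists_forall_reachable]
      refine ⟨⟨b, rfl⟩, ?_⟩
      rintro ⟨x, hx⟩
      have : x = b := hx
      subst this
      exact SimpleGraph.Reachable.refl _
    exact SimpleGraph.connected_induce_union (SimpleGraph.Connected.preconnected hC) hb1.preconnected ha rfl hab

/-- the situation, for an abstract planar graph -/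
private structure Sit (M : SimpleGraph V) (U C F₁ F₂ : Set V) (z p q w w' s s' : V) : Prop where
  c2 : ∀ F, IsFace M U F → PC M U ∅ {F}
  c3 : ∀ (A B : Set V) (T S : Set (Set V)), PC M U A T → PC M U B S → PT M U A T B S → PC M U (A ∪ B) (T ∪ S)
  c4 : ∀ (x : V) (T : Set (Set V)), x ∈ U → (∀ F ∈ T, x ∈ F) → PC M U {x} T
  c6 : ∀ (A B : Fin 3 → Set V) (T S : Fin 3 → Set (Set V)), (∀ i, PC M U (A i) (T i)) → (∀ i, PC M U (B i) (S i)) →
    (∀ i j, i ≠ j → Disjoint (A i) (A j)) → (∀ i j, i ≠ j → Disjoint (B i) (B j)) → (∀ i j, Disjoint (A i) (B j)) →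
    (∀ i j, i ≠ j → Disjoint (T i) (T j)) → (∀ i j, i ≠ j → Disjoint (S i) (S j)) → (∀ i j, Disjoint (T i) (S j)) →
    (∀ i j, PT M U (A i) (T i) (B j) (S j)) → False
  hC : PC M U C ∅
  i1 : IsFace M U F₁
  i2 : IsFace M U F₂
  CU : C ⊆ U
  zU : z ∈ U
  pU : p ∈ U
  qU : q ∈ U
  wU : w ∈ U
  wU' : w' ∈ U
  sU : s ∈ U
  sU' : s' ∈ U
  zC : z ∉ C
  pC : p ∉ C
  qC : q ∉ C
  wC : w ∉ C
  wC' : w' ∉ C
  sC : s ∉ C
  sC' : s' ∉ C
  nd : [z, p, q, w, w', s, s'].Nodup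
  zp : M.Adj z p
  zq : M.Adj z q
  FF : F₁ ≠ F₂
  w1 : w ∈ F₁
  w1' : w' ∈ F₁
  s1 : s' ∈ F₁
  w2 : w ∈ F₂
  w2' : w' ∈ F₂
  s2 : s ∈ F₂
  p1 : p ∉ F₁
  p2 : p ∉ F₂
  q1 : q ∉ F₁
  q2 : q ∉ F₂
  pw : Cof M U p w
  ps : Cof M U p s
  ps' : Cof M U p s'
  qw : Cof M U q w'
  qs : Cof M U q s
  qs' : Cof M U q s'
  npq : ¬ Cof M U p q

private theorem Sit.sym {M : SimpleGraph V} {U C F₁ F₂ : Set V} {z p q w w' s s' : V}
    (h : Sit M U C F₁ F₂ z p q w w' s s') : Sit M U C F₁ F₂ z q p w' w s s' where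
  c2 := h.c2
  c3 := h.c3
  c4 := h.c4
  c6 := h.c6
  hC := h.hC
  i1 := h.i1
  i2 := h.i2
  CU := h.CU
  zU := h.zU
  pU := h.qU
  qU := h.pU
  wU := h.wU'
  wU' := h.wU
  sU := h.sU
  sU' := h.sU'
  zC := h.zC
  pC := h.qC
  qC := h.pC
  wC := h.wC'
  wC' := h.wC
  sC := h.sC
  sC' := h.sC'
  nd := by
    have := h.nd
    simp only [List.nodup_cons, List.mem_cons, not_or, List.not_mem_nil, not_false_iff, and_true, List.nodup_nil] at this ⊢
    obtain ⟨⟨a1, a2, a3, a4, a5, a6⟩, ⟨b1, b2, b3, b4, b5⟩, ⟨c1, c2, c3, c4⟩, ⟨d1, d2, d3⟩, ⟨e1, e2⟩, f1⟩ := this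
    exact ⟨⟨a2, a1, a4, a3, a5, a6⟩, ⟨Ne.symm b1, c2, c1, c3, c4⟩, ⟨b3, b2, b4, b5⟩, ⟨Ne.symm d1, e1, e2⟩, ⟨d2, d3⟩, f1⟩
  zp := h.zq
  zq := h.zp
  FF := h.FF
  w1 := h.w1'
  w1' := h.w1
  s1 := h.s1
  w2 := h.w2'
  w2' := h.w2
  s2 := h.s2
  p1 := h.q1
  p2 := h.q2
  q1 := h.p1
  q2 := h.p2
  pw := h.qw
  ps := h.qs
  ps' := h.qs'
  qw := h.pw
  qs := h.ps
  qs' := h.ps'
  npq := fun ⟨F, hF, hq, hp⟩ => h.npq ⟨F, hF, hp, hq⟩

/-- add one vertex lying in a face of the set -/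
private theorem Sit.addF {M : SimpleGraph V} {U C F₁ F₂ : Set V} {z p q w w' s s' : V}
    (h : Sit M U C F₁ F₂ z p q w w' s s') {A : Set V} {T : Set (Set V)} (hA : PC M U A T) {a : V} (ha : a ∈ U)
    {F : Set V} (hF : IsFace M U F) (hFT : F ∈ T) (haF : a ∈ F) : PC M U (A ∪ {a}) T := by
  have := h.c3 A {a} T ∅ hA (h.c4 a ∅ ha (by simp)) (Or.inr (Or.inr ⟨F, hFT, a, rfl, hF, haF⟩))
  simpa using this

/-- add one adjacent vertex with some faces -/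
private theorem Sit.addV {M : SimpleGraph V} {U C F₁ F₂ : Set V} {z p q w w' s s' : V}
    (h : Sit M U C F₁ F₂ z p q w w' s s') {A : Set V} {T : Set (Set V)} (hA : PC M U A T) {a b : V} (ha : a ∈ U)
    (hb : b ∈ A) (hbU : b ∈ U) (hab : M.Adj b a) (S : Set (Set V)) (hS : ∀ F ∈ S, a ∈ F) :
    PC M U (A ∪ {a}) (T ∪ S) :=
  h.c3 A {a} T S hA (h.c4 a S ha hS) (Or.inl ⟨b, hb, a, rfl, hbU, ha, hab⟩)

private theorem k33 {M : SimpleGraph V} {U C F₁ F₂ : Set V} {z p q w w' s s' : V}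
    (h : Sit M U C F₁ F₂ z p q w w' s s') (R K : Set V) (TR TS : Set (Set V))
    (hR : PC M U R TR) (hS : PC M U K TS) (wR : w ∉ R) (wR' : w' ∉ R) (wS : w ∉ K) (wS' : w' ∉ K)
    (RS : Disjoint R K) (hTR : ∀ F ∈ TR, IsFace M U F ∧ (p ∈ F ∨ q ∈ F)) (hTS : ∀ F ∈ TS, IsFace M U F ∧ (p ∈ F ∨ q ∈ F))
    (hpq : ∀ F ∈ TR, ∀ F' ∈ TS, F ≠ F')
    (sR : s ∈ R) (sR' : s' ∈ R) (t1 : PT M U {w} ∅ K TS) (t2 : PT M U {w'} ∅ K TS)
    (t3 : PT M U R TR K TS) : False := by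
  have hww : w ≠ w' := by
    have := h.nd
    simp only [List.nodup_cons, List.mem_cons, not_or] at this
    exact this.2.2.2.1.1
  have f1 : F₁ ∉ TR := fun hF => (hTR _ hF).2.elim h.p1 h.q1
  have f2 : F₂ ∉ TR := fun hF => (hTR _ hF).2.elim h.p2 h.q2
  have f3 : F₁ ∉ TS := fun hF => (hTS _ hF).2.elim h.p1 h.q1
  have f4 : F₂ ∉ TS := fun hF => (hTS _ hF).2.elim h.p2 h.q2
  have ts : Disjoint TR TS := Set.disjoint_left.2 fun F a b => hpq F a F b rfl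
  have g1 : PC M U {w} ∅ := h.c4 w ∅ h.wU (by simp)
  have g2 : PC M U {w'} ∅ := h.c4 w' ∅ h.wU' (by simp)
  have e1 : PC M U ∅ {F₁} := h.c2 F₁ h.i1
  have e2 : PC M U ∅ {F₂} := h.c2 F₂ h.i2
  refine h.c6 ![{w}, {w'}, R] ![∅, ∅, K] ![∅, ∅, TR] ![{F₁}, {F₂}, TS] ?_ ?_ ?_ ?_ ?_ ?_ ?_ ?_ ?_
  · intro i
    fin_cases i
    · exact g1
    · exact g2
    · exact hR
  · intro i
    fin_cases i
    · exact e1
    · exact e2
    · exact hS
  · intro i j hij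
    fin_cases i <;> fin_cases j <;> simp_all [Set.disjoint_singleton_left, Set.disjoint_singleton_right, hww.symm]
  · intro i j hij
    fin_cases i <;> fin_cases j <;> simp_all
  · intro i j
    fin_cases i <;> fin_cases j <;> simp_all
  · intro i j hij
    fin_cases i <;> fin_cases j <;> simp_all
  · intro i j hij
    fin_cases i <;> fin_cases j <;> simp_all [h.FF, h.FF.symm]
  · intro i j
    fin_cases i <;> fin_cases j <;> simp_all
  · intro i j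
    fin_cases i <;> fin_cases j
    · exact Or.inr (Or.inl ⟨w, rfl, F₁, rfl, h.i1, h.w1⟩)
    · exact Or.inr (Or.inl ⟨w, rfl, F₂, rfl, h.i2, h.w2⟩)
    · exact t1
    · exact Or.inr (Or.inl ⟨w', rfl, F₁, rfl, h.i1, h.w1'⟩)
    · exact Or.inr (Or.inl ⟨w', rfl, F₂, rfl, h.i2, h.w2'⟩)
    · exact t2
    · exact Or.inr (Or.inl ⟨s', sR', F₁, rfl, h.i1, h.s1⟩)
    · exact Or.inr (Or.inl ⟨s, sR, F₂, rfl, h.i2, h.s2⟩)
    · exact t3

/-- `s` and `s'` touch `C` -/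
private theorem caseA {M : SimpleGraph V} {U C F₁ F₂ : Set V} {z p q w w' s s' : V}
    (h : Sit M U C F₁ F₂ z p q w w' s s') {a a' : V} (ha : a ∈ C) (ha' : a' ∈ C) (as : M.Adj a s) (as' : M.Adj a' s') :
    False := by
  obtain ⟨g, hg, pg, wg⟩ := h.pw
  obtain ⟨g', hg', qg', wg'⟩ := h.qw
  obtain ⟨k, hk, pk, sk⟩ := h.ps
  have nd := h.nd
  simp only [List.nodup_cons, List.mem_cons, not_or, List.not_mem_nil, not_false_iff, and_true, List.nodup_nil] at nd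
  obtain ⟨⟨a1, a2, a3, a4, a5, a6⟩, ⟨b1, b2, b3, b4, b5⟩, ⟨c1, c2, c3, c4⟩, ⟨d1, d2, d3⟩, ⟨e1, e2⟩, i1⟩ := nd
  have r1 : PC M U (C ∪ {s}) ∅ := by
    simpa using h.addV h.hC h.sU ha (h.CU ha) as ∅ (by simp)
  have r2 : PC M U (C ∪ {s} ∪ {s'}) ∅ := by
    have := h.addV r1 h.sU' (Or.inl ha') (h.CU ha') as' ∅ (by simp)
    rwa [Set.union_empty] at this
  have k1 : PC M U {p} {g, k} := h.c4 p _ h.pU (by rintro F (rfl | rfl) <;> assumption)
  have k2 := h.addV k1 h.zU rfl h.pU h.zp.symm ∅ (by simp)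
  have k3 := h.addV k2 h.qU (Or.inr rfl) h.zU h.zq {g'} (by rintro F rfl; exact qg')
  refine k33 h (C ∪ {s} ∪ {s'}) ({p} ∪ {z} ∪ {q}) ∅ ({g, k} ∪ ∅ ∪ {g'}) r2 k3 ?_ ?_ ?_ ?_ ?_ ?_ ?_ ?_ ?_ ?_ ?_ ?_ ?_
  · rintro ((hw | hw) | hw)
    · exact h.wC hw
    · exact d2 hw
    · exact d3 hw
  · rintro ((hw | hw) | hw)
    · exact h.wC' hw
    · exact e1 hw
    · exact e2 hw
  · rintro ((hw | hw) | hw)
    · exact b2 hw.symm
    · exact a3 hw.symm
    · exact c1 hw.symm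
  · rintro ((hw | hw) | hw)
    · exact b3 hw.symm
    · exact a4 hw.symm
    · exact c2 hw.symm
  · rw [Set.disjoint_left]
    rintro x ((hx | hx) | hx) ((hy | hy) | hy)
    · exact h.pC (hy ▸ hx)
    · exact h.zC (hy ▸ hx)
    · exact h.qC (hy ▸ hx)
    · exact b4 (hy.symm.trans hx)
    · exact a5 (hy.symm.trans hx)
    · exact c3 (hy.symm.trans hx)
    · exact b5 (hy.symm.trans hx)
    · exact a6 (hy.symm.trans hx)
    · exact c4 (hy.symm.trans hx)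
  · intro F hF
    exact absurd hF (by simp)
  · rintro F (((rfl | rfl) | hF) | rfl)
    · exact ⟨hg, Or.inl pg⟩
    · exact ⟨hk, Or.inl pk⟩
    · exact absurd hF (by simp)
    · exact ⟨hg', Or.inr qg'⟩
  · intro F hF
    exact absurd hF (by simp)
  · exact Or.inl (Or.inr rfl)
  · exact Or.inr rfl
  · exact Or.inr (Or.inl ⟨w, rfl, g, Or.inl (Or.inl (Or.inl rfl)), hg, wg⟩)
  · exact Or.inr (Or.inl ⟨w', rfl, g', Or.inr rfl, hg', wg'⟩)
  · exact Or.inr (Or.inl ⟨s, Or.inl (Or.inr rfl), k, Or.inl (Or.inl (Or.inr rfl)), hk, sk⟩)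

/-- the set `p, s, s', z` with the two faces containing `p, s` and `p, s'` -/
private theorem starp {M : SimpleGraph V} {U C F₁ F₂ : Set V} {z p q w w' s s' : V}
    (h : Sit M U C F₁ F₂ z p q w w' s s') : ∃ k k', IsFace M U k ∧ IsFace M U k' ∧ p ∈ k ∧ p ∈ k' ∧
      PC M U ({p} ∪ {s} ∪ {s'}) {k, k'} := by
  obtain ⟨k, hk, pk, sk⟩ := h.ps
  obtain ⟨k', hk', pk', sk'⟩ := h.ps'
  refine ⟨k, k', hk, hk', pk, pk', ?_⟩
  have k1 : PC M U {p} {k, k'} := h.c4 p _ h.pU (by rintro F (rfl | rfl) <;> assumption)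
  have k2 := h.addF k1 h.sU hk (Or.inl rfl) sk
  exact h.addF k2 h.sU' hk' (Or.inr rfl) sk'

/-- `w` and `w'` touch `C` -/
private theorem caseB {M : SimpleGraph V} {U C F₁ F₂ : Set V} {z p q w w' s s' : V}
    (h : Sit M U C F₁ F₂ z p q w w' s s') {a a' a'' x : V} (ha : a ∈ C) (ha' : a' ∈ C) (aw : M.Adj a w)
    (aw' : M.Adj a' w') (ha'' : a'' ∈ C) (hx : x ∈ ({p} ∪ {s} ∪ {s'} ∪ {z} ∪ {q} : Set V)) (ax : M.Adj a'' x) :
    False := by
  obtain ⟨k, k', hk, hk', pk, pk', hR⟩ := starp h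
  have nd := h.nd
  simp only [List.nodup_cons, List.mem_cons, not_or, List.not_mem_nil, not_false_iff, and_true, List.nodup_nil] at nd
  obtain ⟨⟨a1, a2, a3, a4, a5, a6⟩, ⟨b1, b2, b3, b4, b5⟩, ⟨c1, c2, c3, c4⟩, ⟨d1, d2, d3⟩, ⟨e1, e2⟩, i1⟩ := nd
  have r1 : PC M U ({p} ∪ {s} ∪ {s'} ∪ {z}) {k, k'} := by
    have := h.addV hR h.zU (Or.inl (Or.inl rfl)) h.pU h.zp.symm ∅ (by simp)
    rwa [Set.union_empty] at this
  have r2 : PC M U ({p} ∪ {s} ∪ {s'} ∪ {z} ∪ {q}) {k, k'} := by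
    have := h.addV r1 h.qU (Or.inr rfl) h.zU h.zq ∅ (by simp)
    rwa [Set.union_empty] at this
  have hxU : x ∈ U := by
    rcases hx with (((rfl | rfl) | rfl) | rfl) | rfl
    · exact h.pU
    · exact h.sU
    · exact h.sU'
    · exact h.zU
    · exact h.qU
  refine k33 h ({p} ∪ {s} ∪ {s'} ∪ {z} ∪ {q}) C {k, k'} ∅ r2 h.hC ?_ ?_ h.wC h.wC' ?_ ?_ ?_ ?_ ?_ ?_ ?_ ?_ ?_
  · rintro ((((hw | hw) | hw) | hw) | hw)
    · exact b2 hw.symm
    · exact d2 hw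
    · exact d3 hw
    · exact a3 hw.symm
    · exact c1 hw.symm
  · rintro ((((hw | hw) | hw) | hw) | hw)
    · exact b3 hw.symm
    · exact e1 hw
    · exact e2 hw
    · exact a4 hw.symm
    · exact c2 hw.symm
  · rw [Set.disjoint_left]
    rintro y ((((hy | hy) | hy) | hy) | hy) hyC
    · exact h.pC (hy ▸ hyC)
    · exact h.sC (hy ▸ hyC)
    · exact h.sC' (hy ▸ hyC)
    · exact h.zC (hy ▸ hyC)
    · exact h.qC (hy ▸ hyC)
  · rintro F (rfl | rfl)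
    · exact ⟨hk, Or.inl pk⟩
    · exact ⟨hk', Or.inl pk'⟩
  · intro F hF
    exact absurd hF (by simp)
  · intro F _ F' hF'
    exact absurd hF' (by simp)
  · exact Or.inl (Or.inl (Or.inl (Or.inr rfl)))
  · exact Or.inl (Or.inl (Or.inr rfl))
  · exact Or.inl ⟨w, rfl, a, ha, h.wU, h.CU ha, aw.symm⟩
  · exact Or.inl ⟨w', rfl, a', ha', h.wU', h.CU ha', aw'.symm⟩
  · exact Or.inl ⟨x, hx, a'', ha'', hxU, h.CU ha'', ax.symm⟩

/-- `q` and `w` touch `C` -/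
private theorem caseC {M : SimpleGraph V} {U C F₁ F₂ : Set V} {z p q w w' s s' : V}
    (h : Sit M U C F₁ F₂ z p q w w' s s') {a a' : V} (ha : a ∈ C) (ha' : a' ∈ C) (aw : M.Adj a w)
    (aq : M.Adj a' q) : False := by
  obtain ⟨k, k', hk, hk', pk, pk', hR⟩ := starp h
  obtain ⟨g', hg', qg', wg'⟩ := h.qw
  have nd := h.nd
  simp only [List.nodup_cons, List.mem_cons, not_or, List.not_mem_nil, not_false_iff, and_true, List.nodup_nil] at nd
  obtain ⟨⟨a1, a2, a3, a4, a5, a6⟩, ⟨b1, b2, b3, b4, b5⟩, ⟨c1, c2, c3, c4⟩, ⟨d1, d2, d3⟩, ⟨e1, e2⟩, i1⟩ := nd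
  have r1 : PC M U ({p} ∪ {s} ∪ {s'} ∪ {z}) {k, k'} := by
    have := h.addV hR h.zU (Or.inl (Or.inl rfl)) h.pU h.zp.symm ∅ (by simp)
    rwa [Set.union_empty] at this
  have r2 : PC M U (C ∪ {q}) {g'} := by
    have := h.addV h.hC h.qU ha' (h.CU ha') aq {g'} (by rintro F rfl; exact qg')
    rwa [Set.empty_union] at this
  refine k33 h ({p} ∪ {s} ∪ {s'} ∪ {z}) (C ∪ {q}) {k, k'} {g'} r1 r2 ?_ ?_ ?_ ?_ ?_ ?_ ?_ ?_ ?_ ?_ ?_ ?_ ?_
  · rintro (((hw | hw) | hw) | hw)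
    · exact b2 hw.symm
    · exact d2 hw
    · exact d3 hw
    · exact a3 hw.symm
  · rintro (((hw | hw) | hw) | hw)
    · exact b3 hw.symm
    · exact e1 hw
    · exact e2 hw
    · exact a4 hw.symm
  · rintro (hw | hw)
    · exact h.wC hw
    · exact c1 hw.symm
  · rintro (hw | hw)
    · exact h.wC' hw
    · exact c2 hw.symm
  · rw [Set.disjoint_left]
    rintro y (((hy | hy) | hy) | hy) (hyC | hyC)
    · exact h.pC (hy ▸ hyC)
    · exact b1 (hy.symm.trans hyC)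
    · exact h.sC (hy ▸ hyC)
    · exact c3 (hyC.symm.trans hy)
    · exact h.sC' (hy ▸ hyC)
    · exact c4 (hyC.symm.trans hy)
    · exact h.zC (hy ▸ hyC)
    · exact a2 (hy.symm.trans hyC)
  · rintro F (rfl | rfl)
    · exact ⟨hk, Or.inl pk⟩
    · exact ⟨hk', Or.inl pk'⟩
  · rintro F rfl
    exact ⟨hg', Or.inr qg'⟩
  · rintro F hF F' rfl rfl
    rcases hF with rfl | rfl
    · exact h.npq ⟨_, hk, pk, qg'⟩
    · exact h.npq ⟨_, hk', pk', qg'⟩
  · exact Or.inl (Or.inl (Or.inr rfl))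
  · exact Or.inl (Or.inr rfl)
  · exact Or.inl ⟨w, rfl, a, Or.inl ha, h.wU, h.CU ha, aw.symm⟩
  · exact Or.inr (Or.inl ⟨w', rfl, g', rfl, hg', wg'⟩)
  · exact Or.inl ⟨z, Or.inr rfl, q, Or.inr rfl, h.zU, h.qU, h.zq⟩

/-- `z` and `w` touch `C` -/
private theorem caseD {M : SimpleGraph V} {U C F₁ F₂ : Set V} {z p q w w' s s' : V}
    (h : Sit M U C F₁ F₂ z p q w w' s s') {a a' : V} (ha : a ∈ C) (ha' : a' ∈ C) (aw : M.Adj a w)
    (az : M.Adj a' z) : False := by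
  obtain ⟨k, k', hk, hk', pk, pk', hR⟩ := starp h
  obtain ⟨g', hg', qg', wg'⟩ := h.qw
  have nd := h.nd
  simp only [List.nodup_cons, List.mem_cons, not_or, List.not_mem_nil, not_false_iff, and_true, List.nodup_nil] at nd
  obtain ⟨⟨a1, a2, a3, a4, a5, a6⟩, ⟨b1, b2, b3, b4, b5⟩, ⟨c1, c2, c3, c4⟩, ⟨d1, d2, d3⟩, ⟨e1, e2⟩, i1⟩ := nd
  have r1 : PC M U (C ∪ {z}) ∅ := by
    have := h.addV h.hC h.zU ha' (h.CU ha') az ∅ (by simp)
    rwa [Set.union_empty] at this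
  have r2 : PC M U (C ∪ {z} ∪ {q}) {g'} := by
    have := h.addV r1 h.qU (Or.inr rfl) h.zU h.zq {g'} (by rintro F rfl; exact qg')
    rwa [Set.empty_union] at this
  refine k33 h ({p} ∪ {s} ∪ {s'}) (C ∪ {z} ∪ {q}) {k, k'} {g'} hR r2 ?_ ?_ ?_ ?_ ?_ ?_ ?_ ?_ ?_ ?_ ?_ ?_ ?_
  · rintro ((hw | hw) | hw)
    · exact b2 hw.symm
    · exact d2 hw
    · exact d3 hw
  · rintro ((hw | hw) | hw)
    · exact b3 hw.symm
    · exact e1 hw
    · exact e2 hw
  · rintro ((hw | hw) | hw)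
    · exact h.wC hw
    · exact a3 hw.symm
    · exact c1 hw.symm
  · rintro ((hw | hw) | hw)
    · exact h.wC' hw
    · exact a4 hw.symm
    · exact c2 hw.symm
  · rw [Set.disjoint_left]
    rintro y ((hy | hy) | hy) ((hyC | hyC) | hyC)
    · exact h.pC (hy ▸ hyC)
    · exact a1 (hyC.symm.trans hy)
    · exact b1 (hy.symm.trans hyC)
    · exact h.sC (hy ▸ hyC)
    · exact a5 (hyC.symm.trans hy)
    · exact c3 (hyC.symm.trans hy)
    · exact h.sC' (hy ▸ hyC)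
    · exact a6 (hyC.symm.trans hy)
    · exact c4 (hyC.symm.trans hy)
  · rintro F (rfl | rfl)
    · exact ⟨hk, Or.inl pk⟩
    · exact ⟨hk', Or.inl pk'⟩
  · rintro F rfl
    exact ⟨hg', Or.inr qg'⟩
  · rintro F hF F' rfl rfl
    rcases hF with rfl | rfl
    · exact h.npq ⟨_, hk, pk, qg'⟩
    · exact h.npq ⟨_, hk', pk', qg'⟩
  · exact Or.inl (Or.inr rfl)
  · exact Or.inr rfl
  · exact Or.inl ⟨w, rfl, a, Or.inl (Or.inl ha), h.wU, h.CU ha, aw.symm⟩
  · exact Or.inr (Or.inl ⟨w', rfl, g', rfl, hg', wg'⟩)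
  · exact Or.inl ⟨p, Or.inl (Or.inl rfl), z, Or.inl (Or.inr rfl), h.pU, h.zU, h.zp.symm⟩

/-- the set of the vertices of the list touching `C` has at most four elements -/
private theorem count {M : SimpleGraph V} {U C F₁ F₂ : Set V} {z p q w w' s s' : V} [Finite V]
    (h : Sit M U C F₁ F₂ z p q w w' s s') (N : Set V) (hN : ∀ x ∈ N, ∃ a ∈ C, M.Adj a x)
    (hs : ∀ x ∈ N, x = z ∨ x = p ∨ x = q ∨ x = w ∨ x = w' ∨ x = s ∨ x = s') : N.ncard ≤ 4 := by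
  have four : ∀ a b c d : V, N ⊆ {a, b, c, d} → N.ncard ≤ 4 := by
    intro a b c d hsub
    refine (Set.ncard_le_ncard hsub (Set.toFinite _)).trans ?_
    have h1 := Set.ncard_insert_le a {b, c, d}
    have h2 := Set.ncard_insert_le b {c, d}
    have h3 := Set.ncard_insert_le c {d}
    rw [Set.ncard_singleton] at h3
    omega
  have A1 : ¬ (s ∈ N ∧ s' ∈ N) := by
    rintro ⟨h1, h2⟩
    obtain ⟨a, ha, e⟩ := hN _ h1
    obtain ⟨a', ha', e'⟩ := hN _ h2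
    exact caseA h ha ha' e e'
  have A2 : ¬ (q ∈ N ∧ w ∈ N) := by
    rintro ⟨h1, h2⟩
    obtain ⟨a, ha, e⟩ := hN _ h1
    obtain ⟨a', ha', e'⟩ := hN _ h2
    exact caseC h ha' ha e' e
  have A3 : ¬ (p ∈ N ∧ w' ∈ N) := by
    rintro ⟨h1, h2⟩
    obtain ⟨a, ha, e⟩ := hN _ h1
    obtain ⟨a', ha', e'⟩ := hN _ h2
    exact caseC h.sym ha' ha e' e
  have A4 : ¬ (z ∈ N ∧ w ∈ N) := by
    rintro ⟨h1, h2⟩
    obtain ⟨a, ha, e⟩ := hN _ h1
    obtain ⟨a', ha', e'⟩ := hN _ h2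
    exact caseD h ha' ha e' e
  have A5 : ¬ (z ∈ N ∧ w' ∈ N) := by
    rintro ⟨h1, h2⟩
    obtain ⟨a, ha, e⟩ := hN _ h1
    obtain ⟨a', ha', e'⟩ := hN _ h2
    exact caseD h.sym ha' ha e' e
  by_cases hw : w ∈ N
  · by_cases hw' : w' ∈ N
    · by_cases hx : ∃ x ∈ N, x ∈ ({p} ∪ {s} ∪ {s'} ∪ {z} ∪ {q} : Set V)
      · exfalso
        obtain ⟨x, hxN, hx⟩ := hx
        obtain ⟨a, ha, e⟩ := hN _ hw
        obtain ⟨a', ha', e'⟩ := hN _ hw'
        obtain ⟨a'', ha'', e''⟩ := hN _ hxN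
        exact caseB h ha ha' e e' ha'' hx e''
      · refine four w w' w w' ?_
        intro x hxN
        rcases hs x hxN with rfl | rfl | rfl | rfl | rfl | rfl | rfl
        · exact (hx ⟨_, hxN, by simp⟩).elim
        · exact (hx ⟨_, hxN, by simp⟩).elim
        · exact (hx ⟨_, hxN, by simp⟩).elim
        · simp
        · simp
        · exact (hx ⟨_, hxN, by simp⟩).elim
        · exact (hx ⟨_, hxN, by simp⟩).elim
    · refine four w p s s' ?_
      intro x hxN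
      rcases hs x hxN with rfl | rfl | rfl | rfl | rfl | rfl | rfl
      · exact (A4 ⟨hxN, hw⟩).elim
      · simp
      · exact (A2 ⟨hxN, hw⟩).elim
      · simp
      · exact (hw' hxN).elim
      · simp
      · simp
  · by_cases hw' : w' ∈ N
    · refine four w' q s s' ?_
      intro x hxN
      rcases hs x hxN with rfl | rfl | rfl | rfl | rfl | rfl | rfl
      · exact (A5 ⟨hxN, hw'⟩).elim
      · exact (A3 ⟨hxN, hw'⟩).elim
      · simp
      · exact (hw hxN).elim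
      · simp
      · simp
      · simp
    · by_cases hs1 : s ∈ N
      · refine four z p q s ?_
        intro x hxN
        rcases hs x hxN with rfl | rfl | rfl | rfl | rfl | rfl | rfl
        · simp
        · simp
        · simp
        · exact (hw hxN).elim
        · exact (hw' hxN).elim
        · simp
        · exact (A1 ⟨hs1, hxN⟩).elim
      · refine four z p q s' ?_
        intro x hxN
        rcases hs x hxN with rfl | rfl | rfl | rfl | rfl | rfl | rfl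
        · simp
        · simp
        · simp
        · exact (hw hxN).elim
        · exact (hw' hxN).elim
        · exact (hs1 hxN).elim
        · simp

theorem hWEM : StPCL → StBAS → StWEM := by
  intro pcl bas V _ G z v p q r r' f1 f2 f3 f4 cfg w w' s s' F₁ F₂ hv hww hss hadj i1 i2 hFF zF₁ zF₂ w1 w1' s1 w2 w2' s2
    p1 q1 p2 q2 hp hq npw' nqw c
  by_contra hc
  obtain ⟨C, hcC, hCX, hC, hCN⟩ := comp G {x | ¬ (x = z ∨ x = v ∨ x = p ∨ x = q ∨ x = w ∨ x = w' ∨ x = s ∨ x = s')} c hc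
  obtain ⟨c1, c2, c3, c4, -, c6⟩ := pcl V (dl G p q) {v}ᶜ
  obtain ⟨b1, b2, b3, b4, b5, b6, b7⟩ := bas V G cfg.bh
  have pn : Pn (dl G p q) {v}ᶜ := ⟨b5 v p q, cfg.ds.pl⟩
  have c6 := c6 pn
  have ne := cfg.ds.ne
  have nb := cfg.ds.nb
  have zC : z ∉ C := fun hx => hCX hx (by simp)
  have vC : v ∉ C := fun hx => hCX hx (by simp)
  have pC : p ∉ C := fun hx => hCX hx (by simp)
  have qC : q ∉ C := fun hx => hCX hx (by simp)
  have wC : w ∉ C := fun hx => hCX hx (by simp)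
  have wC' : w' ∉ C := fun hx => hCX hx (by simp)
  have sC : s ∉ C := fun hx => hCX hx (by simp)
  have sC' : s' ∉ C := fun hx => hCX hx (by simp)
  have npq := cfg.npq
  have Gzp : G.Adj z p := (nb p).2 (by simp)
  have Gzq : G.Adj z q := (nb q).2 (by simp)
  have Gzv : G.Adj z v := (nb v).2 (by simp)
  obtain ⟨wp, wz, wv, cpw⟩ := hp w (by simp)
  obtain ⟨sp, sz, sv, cps⟩ := hp s (by simp)
  obtain ⟨sp', sz', sv', cps'⟩ := hp s' (by simp)
  obtain ⟨wq', wz', wv', cqw⟩ := hq w' (by simp)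
  obtain ⟨sq, -, -, cqs⟩ := hq s (by simp)
  obtain ⟨sq', -, -, cqs'⟩ := hq s' (by simp)
  have wq : w ≠ q := fun e => npq (e ▸ cpw)
  have wp' : w' ≠ p := by
    rintro rfl
    obtain ⟨F, hF, h1, h2⟩ := cqw
    exact npq ⟨F, hF, h2, h1⟩
  have ws : w ≠ s := fun e => nqw (e ▸ cqs)
  have ws' : w ≠ s' := fun e => nqw (e ▸ cqs')
  have w's : w' ≠ s := fun e => npw' (e ▸ cps)
  have w's' : w' ≠ s' := fun e => npw' (e ▸ cps')
  have zp : z ≠ p := G.ne_of_adj Gzp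
  have zq : z ≠ q := G.ne_of_adj Gzq
  have zv : z ≠ v := G.ne_of_adj Gzv
  have padj : ∀ a b, G.Adj a b → a ∈ C → (dl G p q).Adj a b := by
    intro a b hab haC
    refine ⟨hab, fun h => pC (h.1 ▸ haC), fun h => qC (h.1 ▸ haC)⟩
  have conC : Con (dl G p q) C := by
    have : (dl G p q).induce C = G.induce C := by
      ext ⟨a, ha⟩ ⟨b, hb⟩
      constructor
      · intro h
        exact h.1
      · intro h
        exact padj a b h ha
    change ((dl G p q).induce C).Connected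
    rw [this]
    exact hC
  have CU : C ⊆ {v}ᶜ := fun x hx e => vC (e ▸ hx)
  have sit : Sit (dl G p q) {v}ᶜ C F₁ F₂ z p q w w' s s' :=
    { c2 := c2, c3 := c3, c4 := c4, c6 := c6, hC := c1 C CU conC, i1 := i1, i2 := i2, CU := CU
      zU := zv, pU := ne.1.symm, qU := ne.2.1.symm, wU := wv, wU' := wv', sU := sv, sU' := sv'
      zC := zC, pC := pC, qC := qC, wC := wC, wC' := wC', sC := sC, sC' := sC'
      nd := by
        simp only [List.nodup_cons, List.mem_cons, not_or, List.not_mem_nil, not_false_iff, and_true, List.nodup_nil]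
        exact ⟨⟨zp, zq, wz.symm, wz'.symm, sz.symm, sz'.symm⟩, ⟨ne.2.2.2.2.1, wp.symm, wp'.symm, sp.symm, sp'.symm⟩,
          ⟨wq.symm, wq'.symm, sq.symm, sq'.symm⟩, ⟨hww, ws, ws'⟩, ⟨w's, w's'⟩, hss⟩
      zp := ⟨Gzp, fun h => zp h.1, fun h => zq h.1⟩
      zq := ⟨Gzq, fun h => zp h.1, fun h => zq h.1⟩
      FF := hFF, w1 := w1, w1' := w1', s1 := s1, w2 := w2, w2' := w2', s2 := s2, p1 := p1, p2 := p2, q1 := q1, q2 := q2
      pw := cpw, ps := cps, ps' := cps', qw := cqw, qs := cqs, qs' := cqs', npq := npq }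
  have vN : v ∉ Nb G C := by
    rintro ⟨-, a, ha, hav⟩
    have := hCX ha
    apply this
    rcases (hv a).1 hav.symm with h | h | h | h | h <;> simp [h]
  have cnt4 : (Nb G C).ncard ≤ 4 := by
    refine count sit (Nb G C) ?_ ?_
    · rintro x ⟨-, a, ha, hax⟩
      exact ⟨a, ha, padj a x hax ha⟩
    · intro x hx
      have h1 := hCN x hx
      simp only [Set.mem_ofPred_eq, not_not] at h1
      rcases h1 with h | h | h | h | h | h | h | h
      · exact Or.inl h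
      · exact (vN (h ▸ hx)).elim
      · exact Or.inr (Or.inl h)
      · exact Or.inr (Or.inr (Or.inl h))
      · exact Or.inr (Or.inr (Or.inr (Or.inl h)))
      · exact Or.inr (Or.inr (Or.inr (Or.inr (Or.inl h))))
      · exact Or.inr (Or.inr (Or.inr (Or.inr (Or.inr (Or.inl h)))))
      · exact Or.inr (Or.inr (Or.inr (Or.inr (Or.inr (Or.inr h)))))
  have huniv := b6 C ⟨c, hcC⟩ cnt4
  have : v ∈ C ∪ Nb G C := by
    rw [huniv]
    trivial
  exact this.elim vC vN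

end Pool.Agent.Helper83.MA
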